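import Pool.Agent.CupF.TransferEps
import Pool.Agent.CupF.SL2Z

set_option autoImplicit false

/-!
# The cup product on `H²_b(F)` is nontrivial for every non-abelian free group `F`
-/

namespace Pool.Agent.Results.MP_cea6b9_al.AllRanks

open Pool.Agent.CupF

/-- For every free group `F` of rank at least two there are real 2-cocycles `f, g` on `F`, bounded by
`1`, such that the 4-cocycle `f(a,b) g(c,d)` has distance at least `1/600` from the coboundary of every
bounded 3-cochain. -/
theorem result (α : Type*) [Nontrivial α] :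
    ∃ f g : FreeGroup α → FreeGroup α → ℝ,
      (∀ a b, |f a b| ≤ 1) ∧ (∀ a b, |g a b| ≤ 1) ∧
      (∀ a b c, f b c - f (a * b) c + f a (b * c) - f a b = 0) ∧
      (∀ a b c, g b c - g (a * b) c + g a (b * c) - g a b = 0) ∧
      ∀ h : FreeGroup α → FreeGroup α → FreeGroup α → ℝ,
        (∃ C : ℝ, ∀ a b c, |h a b c| ≤ C) →
        ∀ ε : ℝ, ε < 1 / 600 → ∃ a b c d, ε < |f a b * g c d
          - (h b c d - h (a * b) c d + h a (b * c) d - h a b (c * d) + h a b c)| := by
  obtain ⟨π, hπ⟩ := exists_surj α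
  refine ⟨fun a b => oriZ (π a).1 (π b).1, fun a b => oriZ (π a).2 (π b).2,
    fun a b => oriZ_abs _ _, fun a b => oriZ_abs _ _, fun a b c => ?_, fun a b c => ?_, ?_⟩
  · have := oriZ_cocycle (π a).1 (π b).1 (π c).1
    simpa [map_mul] using this
  · have := oriZ_cocycle (π a).2 (π b).2 (π c).2
    simpa [map_mul] using this
  · rintro h ⟨C, hC⟩ ε hε
    by_contra hcon
    push Not at hcon
    have hB : ∀ a b c d : SZ × SZ, |oriZ a.1 b.1 * oriZ c.2 d.2| ≤ 1 := by
      intro a b c d
      rw [abs_mul]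
      exact mul_le_one₀ (oriZ_abs _ _) (abs_nonneg _) (oriZ_abs _ _)
    obtain ⟨H, hH, hE⟩ := transfer_eps (E := fun a b c d : SZ × SZ => oriZ a.1 b.1 * oriZ c.2 d.2)
      (ε := ε) hπ hC hB (fun u v w x => by
        have := hcon u v w x
        rw [abs_sub_comm] at this
        exact this)
    have := no_primitive_eps frameZ oriZ oriZ_one_left oriZ_one_right Zf_oriZ H hH hE
    linarith

end Pool.Agent.Results.MP_cea6b9_al.AllRanks
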