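import Mathlib

/-!
Cup products of degree-two bounded classes of a free group: vanishing of the product
`[dφ] ⌣ β` for every quasimorphism `φ` which is (up to bounded error) the sum of an odd edge
potential with summable dependence on the past and the future, and for EVERY bounded class `β`.
-/

set_option autoImplicit false

noncomputable section

namespace Pool.Agent.Results.MP_cea6b9_al.SummablePotential

open FreeGroup

variable {α : Type*}

/-- The inverse of a letter of a free group. -/
def invLetter (s : α × Bool) : α × Bool := (s.1, !s.2)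

/-- An edge potential `R` assigns a real number `R u s v` to a letter `s` together with the word
`u` before it and the word `v` after it. `R` is odd if its value changes sign when the marked
reduced word `u s v` is replaced by its inverse. -/
def OddPotential (R : List (α × Bool) → (α × Bool) → List (α × Bool) → ℝ) : Prop :=
  ∀ (u : List (α × Bool)) (s : α × Bool) (v : List (α × Bool)), IsReduced (u ++ s :: v) →
    R (invRev v) (invLetter s) (invRev u) = - R u s v

/-- `R` has summable dependence on the past: if the past `u` of a word `w` is replaced by another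
past `u'`, then the total change of `R` along `w` is bounded by a constant. -/
def SummableDependence (R : List (α × Bool) → (α × Bool) → List (α × Bool) → ℝ) : Prop :=
  ∃ C : ℝ, ∀ u u' w v : List (α × Bool), IsReduced (u ++ w ++ v) → IsReduced (u' ++ w ++ v) →
    ∑ i : Fin w.length,
      |R (u ++ w.take i) (w.get i) (w.drop (i + 1) ++ v)
        - R (u' ++ w.take i) (w.get i) (w.drop (i + 1) ++ v)| ≤ C

/-- The sum of the potential `R` over all letters of the reduced word of `x`. -/
def potentialSum [DecidableEq α] (R : List (α × Bool) → (α × Bool) → List (α × Bool) → ℝ)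
    (x : FreeGroup α) : ℝ :=
  ∑ i : Fin x.toWord.length,
    R (x.toWord.take i) (x.toWord.get i) (x.toWord.drop (i + 1))

/-! ### Recursive versions -/

/-- Recursive weighted sum of the potential along `w`, starting at the vertex `x`. -/
def T (R : List (α × Bool) → (α × Bool) → List (α × Bool) → ℝ) (f : FreeGroup α → ℝ) :
    FreeGroup α → List (α × Bool) → List (α × Bool) → List (α × Bool) → ℝ
  | _, _, [], _ => 0
  | x, u, s :: w, v =>
      R u s (w ++ v) * ((f x + f (x * FreeGroup.mk [s])) / 2)
        + T R f (x * FreeGroup.mk [s]) (u ++ [s]) w v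

/-- Recursive total variation. -/
def V (R : List (α × Bool) → (α × Bool) → List (α × Bool) → ℝ) :
    List (α × Bool) → List (α × Bool) → List (α × Bool) → List (α × Bool) → ℝ
  | _, _, [], _ => 0
  | u, u', s :: w, v =>
      |R u s (w ++ v) - R u' s (w ++ v)| + V R (u ++ [s]) (u' ++ [s]) w v

variable (R : List (α × Bool) → (α × Bool) → List (α × Bool) → ℝ)

theorem V_eq (u u' w v : List (α × Bool)) :
    V R u u' w v = ∑ i : Fin w.length,
      |R (u ++ w.take i) (w.get i) (w.drop (i + 1) ++ v)
        - R (u' ++ w.take i) (w.get i) (w.drop (i + 1) ++ v)| := by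
  induction w generalizing u u' with
  | nil => simp [V]
  | cons s w ih =>
    rw [V, ih]
    simp only [List.length_cons]
    rw [Fin.sum_univ_succ]
    simp

theorem V_nonneg (u u' w v : List (α × Bool)) : 0 ≤ V R u u' w v := by
  rw [V_eq]
  positivity

theorem T_one (x : FreeGroup α) (u w v : List (α × Bool)) :
    T R (fun _ => 1) x u w v = ∑ i : Fin w.length,
      R (u ++ w.take i) (w.get i) (w.drop (i + 1) ++ v) := by
  induction w generalizing x u with
  | nil => simp [T]
  | cons s w ih =>
    rw [T, ih]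
    simp only [List.length_cons]
    rw [Fin.sum_univ_succ]
    simp

theorem T_append (f : FreeGroup α → ℝ) (x : FreeGroup α) (u w₁ w₂ v : List (α × Bool)) :
    T R f x u (w₁ ++ w₂) v
      = T R f x u w₁ (w₂ ++ v) + T R f (x * FreeGroup.mk w₁) (u ++ w₁) w₂ v := by
  induction w₁ generalizing x u with
  | nil => 
    have : (FreeGroup.mk ([] : List (α × Bool))) = 1 := rfl
    simp [T, this]
  | cons s w ih =>
    have : FreeGroup.mk (s :: w) = FreeGroup.mk [s] * FreeGroup.mk w := by
      rw [FreeGroup.mul_mk]; rfl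
    rw [List.cons_append, T, T, ih, this]
    simp only [List.append_assoc, List.cons_append, List.nil_append, mul_assoc, add_assoc]

theorem T_translate (f : FreeGroup α → ℝ) (g x : FreeGroup α) (u w v : List (α × Bool)) :
    T R f (g * x) u w v = T R (fun y => f (g * y)) x u w v := by
  induction w generalizing x u with
  | nil => simp [T]
  | cons s w ih =>
    rw [T, T, mul_assoc, ih]

theorem T_add (f f' : FreeGroup α → ℝ) (x : FreeGroup α) (u w v : List (α × Bool)) :
    T R (fun y => f y + f' y) x u w v = T R f x u w v + T R f' x u w v := by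
  induction w generalizing x u with
  | nil => simp [T]
  | cons s w ih =>
    rw [T, T, T, ih]; ring

theorem T_smul (c : ℝ) (f : FreeGroup α → ℝ) (x : FreeGroup α) (u w v : List (α × Bool)) :
    T R (fun y => c * f y) x u w v = c * T R f x u w v := by
  induction w generalizing x u with
  | nil => simp [T]
  | cons s w ih =>
    rw [T, T, ih]; ring

/-- Changing the past changes the weighted sum by at most the sup norm times the variation. -/
theorem T_past (f : FreeGroup α → ℝ) (M : ℝ) (hf : ∀ y, |f y| ≤ M) (x : FreeGroup α)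
    (u u' w v : List (α × Bool)) :
    |T R f x u w v - T R f x u' w v| ≤ M * V R u u' w v := by
  induction w generalizing x u u' with
  | nil => simp [T, V]
  | cons s w ih =>
    rw [T, T, V]
    have h1 : |(f x + f (x * FreeGroup.mk [s])) / 2| ≤ M := by
      have a1 := abs_le.mp (hf x)
      have a2 := abs_le.mp (hf (x * FreeGroup.mk [s]))
      rw [abs_le]; constructor <;> linarith [a1.1, a1.2, a2.1, a2.2]
    have h2 := ih (x * FreeGroup.mk [s]) (u ++ [s]) (u' ++ [s])
    have e : R u s (w ++ v) * ((f x + f (x * FreeGroup.mk [s])) / 2)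
        + T R f (x * FreeGroup.mk [s]) (u ++ [s]) w v
        - (R u' s (w ++ v) * ((f x + f (x * FreeGroup.mk [s])) / 2)
        + T R f (x * FreeGroup.mk [s]) (u' ++ [s]) w v)
        = (R u s (w ++ v) - R u' s (w ++ v)) * ((f x + f (x * FreeGroup.mk [s])) / 2)
        + (T R f (x * FreeGroup.mk [s]) (u ++ [s]) w v
          - T R f (x * FreeGroup.mk [s]) (u' ++ [s]) w v) := by ring
    rw [e]
    refine (abs_add_le _ _).trans ?_
    rw [abs_mul, mul_add]
    refine add_le_add ?_ h2
    rw [mul_comm]
    exact mul_le_mul_of_nonneg_right h1 (abs_nonneg _)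

/-- Reversing the path changes the sign. -/
theorem T_reverse (hodd : OddPotential R) (f : FreeGroup α → ℝ) (x : FreeGroup α)
    (u w v : List (α × Bool)) (h : IsReduced (u ++ w ++ v)) :
    T R f (x * FreeGroup.mk w) (invRev v) (invRev w) (invRev u) = - T R f x u w v := by
  induction w generalizing x u with
  | nil => simp [T]
  | cons s w ih =>
    have e1 : FreeGroup.mk (s :: w) = FreeGroup.mk [s] * FreeGroup.mk w := by
      rw [FreeGroup.mul_mk]; rfl
    have e2 : invRev (s :: w) = invRev w ++ [invLetter s] := by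
      simp [invRev, invLetter]
    have e3 : [invLetter s] ++ invRev u = invRev (u ++ [s]) := by
      simp [invRev, invLetter]
    have e4 : x * FreeGroup.mk (s :: w) * FreeGroup.mk (invRev w) = x * FreeGroup.mk [s] := by
      rw [e1, ← FreeGroup.inv_mk]; group
    have e5 : invRev v ++ invRev w = invRev (w ++ v) := by rw [invRev_append]
    have e6 : x * FreeGroup.mk [s] * FreeGroup.mk [invLetter s] = x := by
      have : FreeGroup.mk [invLetter s] = (FreeGroup.mk [s])⁻¹ := by
        rw [FreeGroup.inv_mk]; rfl
      rw [this]; group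
    have h' : IsReduced ((u ++ [s]) ++ w ++ v) := by simpa using h
    have h'' : IsReduced (u ++ s :: (w ++ v)) := by simpa using h
    rw [e2, T_append, e3, e4]
    have ih' := ih (x * FreeGroup.mk [s]) (u ++ [s]) h'
    rw [e1, ← mul_assoc, ih', T, T, T, e5, e6, List.nil_append, hodd u s (w ++ v) h'']
    ring

section main

variable [DecidableEq α]

theorem isReduced_invRev {L : List (α × Bool)} (h : IsReduced L) : IsReduced (invRev L) := by
  rw [isReduced_iff_reduce_eq] at h ⊢
  rw [reduce_invRev, h]

/-- Cancellation in a product of two reduced words. -/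
theorem exists_cancel (A B : List (α × Bool)) (hA : IsReduced A) (hB : IsReduced B) :
    ∃ p q r, A = p ++ q ∧ B = invRev q ++ r ∧ IsReduced (p ++ r) := by
  induction A using List.reverseRecOn generalizing B with
  | nil => exact ⟨[], [], B, by simp, by simp, by simpa using hB⟩
  | append_singleton A s ih =>
    cases B with
    | nil => exact ⟨A ++ [s], [], [], by simp, by simp, by simpa using hA⟩
    | cons t B =>
      by_cases hst : t = invLetter s
      · subst hst
        have hA' : IsReduced A := List.IsChain.left_of_append hA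
        have hB' : IsReduced B := List.IsChain.right_of_append (l₁ := [invLetter s]) hB
        obtain ⟨p, q, r, h1, h2, h3⟩ := ih B hA' hB'
        refine ⟨p, q ++ [s], r, by rw [h1]; simp, ?_, h3⟩
        rw [h2]
        simp [invRev, invLetter]
      · refine ⟨A ++ [s], [], t :: B, by simp, by simp, ?_⟩
        have h1 : IsReduced ([s] ++ (t :: B)) := by
          simp only [List.cons_append, List.nil_append]
          rw [isReduced_cons_cons]
          refine ⟨?_, hB⟩
          intro h
          by_contra hne
          apply hst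
          have : t.2 = !s.2 := by
            cases hs : s.2 <;> cases ht : t.2 <;> simp_all
          exact Prod.ext h.symm this
        exact IsReduced.append_overlap hA h1 (by simp)

theorem toWord_cancel (a b : FreeGroup α) :
    ∃ p q r, a.toWord = p ++ q ∧ b.toWord = invRev q ++ r ∧ (a * b).toWord = p ++ r := by
  obtain ⟨p, q, r, h1, h2, h3⟩ := exists_cancel a.toWord b.toWord isReduced_toWord isReduced_toWord
  refine ⟨p, q, r, h1, h2, ?_⟩
  have ha : a = FreeGroup.mk p * FreeGroup.mk q := by
    rw [← mk_toWord (x := a), h1, FreeGroup.mul_mk]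
  have hb : b = (FreeGroup.mk q)⁻¹ * FreeGroup.mk r := by
    rw [← mk_toWord (x := b), h2, FreeGroup.inv_mk, FreeGroup.mul_mk]
  have : a * b = FreeGroup.mk (p ++ r) := by
    rw [ha, hb, ← FreeGroup.mul_mk]; group
  rw [this, toWord_mk, isReduced_iff_reduce_eq.mp h3]

/-- The pairing of the lifted quasimorphism with a function `f`. -/
def P (x y : FreeGroup α) (f : FreeGroup α → ℝ) : ℝ := T R f x [] (x⁻¹ * y).toWord []

theorem P_translate (g x y : FreeGroup α) (f : FreeGroup α → ℝ) :
    P R (g * x) (g * y) f = P R x y (fun v => f (g * v)) := by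
  unfold P
  rw [T_translate]
  congr 2
  group

theorem P_one (x y : FreeGroup α) : P R x y (fun _ => 1) = potentialSum R (x⁻¹ * y) := by
  unfold P potentialSum
  rw [T_one]
  simp

theorem P_add (x y : FreeGroup α) (f f' : FreeGroup α → ℝ) :
    P R x y (fun v => f v + f' v) = P R x y f + P R x y f' := T_add R f f' _ _ _ _

theorem P_smul (x y : FreeGroup α) (c : ℝ) (f : FreeGroup α → ℝ) :
    P R x y (fun v => c * f v) = c * P R x y f := T_smul R c f _ _ _ _

/-- The coboundary of the lifted quasimorphism. -/
def D (x y z : FreeGroup α) (f : FreeGroup α → ℝ) : ℝ := P R y z f - P R x z f + P R x y f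

theorem D_bound (hodd : OddPotential R) (C : ℝ)
    (hC : ∀ u u' w v : List (α × Bool), IsReduced (u ++ w ++ v) → IsReduced (u' ++ w ++ v) →
      V R u u' w v ≤ C) (f : FreeGroup α → ℝ) (M : ℝ) (hf : ∀ y, |f y| ≤ M)
    (x y z : FreeGroup α) : |D R x y z f| ≤ 3 * (M * C) := by
  have hM : 0 ≤ M := (abs_nonneg _).trans (hf 1)
  obtain ⟨p, q, r, h1, h2, h3⟩ := toWord_cancel (x⁻¹ * y) (y⁻¹ * z)
  have hxz : x⁻¹ * y * (y⁻¹ * z) = x⁻¹ * z := by group
  rw [hxz] at h3
  have hy : x⁻¹ * y = FreeGroup.mk p * FreeGroup.mk q := by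
    rw [← mk_toWord (x := x⁻¹ * y), h1, FreeGroup.mul_mk]
  have hy' : y = x * FreeGroup.mk p * FreeGroup.mk q := by
    rw [mul_assoc, ← hy]; group
  have r1 : IsReduced (p ++ q) := h1 ▸ isReduced_toWord
  have r2 : IsReduced (invRev q ++ r) := h2 ▸ isReduced_toWord
  have r3 : IsReduced (p ++ r) := h3 ▸ isReduced_toWord
  set m := x * FreeGroup.mk p with hm
  unfold D P
  rw [h1, h2, h3, T_append, T_append, T_append]
  have em : y * FreeGroup.mk (invRev q) = m := by
    rw [hy', ← FreeGroup.inv_mk]; group
  rw [em]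
  simp only [List.append_nil, List.nil_append, ← hm]
  -- part on `[x, m]`
  have k1 := T_reverse R hodd f x [] p q (by simpa using r1)
  have k2 := T_reverse R hodd f x [] p r (by simpa using r3)
  have k3 := T_reverse R hodd f m (invRev r) q [] (by
    have := isReduced_invRev r2
    rw [invRev_append, invRev_invRev] at this
    simpa using this)
  rw [← hm] at k1 k2
  rw [← hy', invRev_invRev] at k3
  simp only [invRev_empty] at k1 k2 k3
  have b1 := T_past R f M hf m (invRev q) (invRev r) (invRev p) []
  have b2 := T_past R f M hf m p (invRev r) q []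
  have b3 := T_past R f M hf m (invRev q) p r []
  have c1 := hC (invRev q) (invRev r) (invRev p) [] (by
      have := isReduced_invRev r1
      rw [invRev_append] at this
      simpa using this) (by
      have := isReduced_invRev r3
      rw [invRev_append] at this
      simpa using this)
  have c2 := hC p (invRev r) q [] (by simpa using r1) (by
      have := isReduced_invRev r2
      rw [invRev_append, invRev_invRev] at this
      simpa using this)
  have c3 := hC (invRev q) p r [] (by simpa using r2) (by simpa using r3)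
  have d1 := b1.trans (mul_le_mul_of_nonneg_left c1 hM)
  have d2 := b2.trans (mul_le_mul_of_nonneg_left c2 hM)
  have d3 := b3.trans (mul_le_mul_of_nonneg_left c3 hM)
  rw [abs_le] at d1 d2 d3 ⊢
  constructor <;> linarith [d1.1, d1.2, d2.1, d2.2, d3.1, d3.2]

/-- The homogeneous bounded primitive. -/
def H (g : FreeGroup α → FreeGroup α → ℝ) (x₀ x₁ x₂ x₃ : FreeGroup α) : ℝ :=
  D R x₀ x₁ x₂ (fun v => g (v⁻¹ * x₂) (x₂⁻¹ * x₃))

theorem H_translate (g : FreeGroup α → FreeGroup α → ℝ) (t x₀ x₁ x₂ x₃ : FreeGroup α) :
    H R g (t * x₀) (t * x₁) (t * x₂) (t * x₃) = H R g x₀ x₁ x₂ x₃ := by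
  unfold H D
  rw [P_translate, P_translate, P_translate]
  have : (fun v => (fun v => g (v⁻¹ * (t * x₂)) ((t * x₂)⁻¹ * (t * x₃))) (t * v))
      = (fun v => g (v⁻¹ * x₂) (x₂⁻¹ * x₃)) := by
    funext v
    have e1 : (t * v)⁻¹ * (t * x₂) = v⁻¹ * x₂ := by group
    have e2 : (t * x₂)⁻¹ * (t * x₃) = x₂⁻¹ * x₃ := by group
    simp only [e1, e2]
  rw [this]

theorem H_coboundary (g : FreeGroup α → FreeGroup α → ℝ)
    (hg : ∀ a b c, g b c - g (a * b) c + g a (b * c) - g a b = 0)
    (x₀ x₁ x₂ x₃ x₄ : FreeGroup α) :
    H R g x₁ x₂ x₃ x₄ - H R g x₀ x₂ x₃ x₄ + H R g x₀ x₁ x₃ x₄ - H R g x₀ x₁ x₂ x₄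
      + H R g x₀ x₁ x₂ x₃
      = (potentialSum R (x₁⁻¹ * x₂) - potentialSum R (x₀⁻¹ * x₂) + potentialSum R (x₀⁻¹ * x₁))
        * g (x₂⁻¹ * x₃) (x₃⁻¹ * x₄) := by
  have key : ∀ v, g (v⁻¹ * x₂) (x₂⁻¹ * x₄) =
      (g (v⁻¹ * x₂) (x₂⁻¹ * x₃) + g (v⁻¹ * x₃) (x₃⁻¹ * x₄))
        + (-(g (x₂⁻¹ * x₃) (x₃⁻¹ * x₄))) * 1 := by
    intro v
    have h := hg (v⁻¹ * x₂) (x₂⁻¹ * x₃) (x₃⁻¹ * x₄)
    have e1 : v⁻¹ * x₂ * (x₂⁻¹ * x₃) = v⁻¹ * x₃ := by group
    have e2 : x₂⁻¹ * x₃ * (x₃⁻¹ * x₄) = x₂⁻¹ * x₄ := by group
    rw [e1, e2] at h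
    linarith
  have split : ∀ x y, P R x y (fun v => g (v⁻¹ * x₂) (x₂⁻¹ * x₄))
      = P R x y (fun v => g (v⁻¹ * x₂) (x₂⁻¹ * x₃))
        + P R x y (fun v => g (v⁻¹ * x₃) (x₃⁻¹ * x₄))
        - g (x₂⁻¹ * x₃) (x₃⁻¹ * x₄) * potentialSum R (x⁻¹ * y) := by
    intro x y
    have : (fun v => g (v⁻¹ * x₂) (x₂⁻¹ * x₄)) = (fun v =>
      (fun v => g (v⁻¹ * x₂) (x₂⁻¹ * x₃) + g (v⁻¹ * x₃) (x₃⁻¹ * x₄)) v
        + (fun v => (-(g (x₂⁻¹ * x₃) (x₃⁻¹ * x₄))) * (fun _ => (1 : ℝ)) v) v) := by
      funext v
      exact key v
    rw [this, P_add, P_add, P_smul, P_one]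
    ring
  unfold H D
  rw [split x₁ x₂, split x₀ x₂, split x₀ x₁]
  ring

end main

/-- **Theorem.** Let `R` be an odd edge potential on the free group `F` with summable dependence
on the past, and let `ψ : F → ℝ` be at bounded distance from the potential sum of `R`. Then `ψ`
is a quasimorphism, and for every bounded 2-cocycle `g` on `F` the product of the class of the
coboundary of `ψ` with the class of `g` vanishes in degree-four bounded cohomology. -/
theorem result {α : Type*} [DecidableEq α]
    (R : List (α × Bool) → (α × Bool) → List (α × Bool) → ℝ)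
    (hodd : OddPotential R) (hsum : SummableDependence R)
    (ψ : FreeGroup α → ℝ) (hψ : ∃ K : ℝ, ∀ x, |ψ x - potentialSum R x| ≤ K) :
    (∃ D : ℝ, ∀ a b, |ψ b - ψ (a * b) + ψ a| ≤ D) ∧
    ∀ g : FreeGroup α → FreeGroup α → ℝ,
      (∃ C : ℝ, ∀ a b, |g a b| ≤ C) →
      (∀ a b c, g b c - g (a * b) c + g a (b * c) - g a b = 0) →
      ∃ h : FreeGroup α → FreeGroup α → FreeGroup α → ℝ,
        (∃ C : ℝ, ∀ a b c, |h a b c| ≤ C) ∧
        ∀ a b c d,
          h b c d - h (a * b) c d + h a (b * c) d - h a b (c * d) + h a b c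
            = (ψ b - ψ (a * b) + ψ a) * g c d := by
  obtain ⟨C, hC0⟩ := hsum
  have hC : ∀ u u' w v : List (α × Bool), IsReduced (u ++ w ++ v) → IsReduced (u' ++ w ++ v) →
      V R u u' w v ≤ C := by
    intro u u' w v h1 h2
    rw [V_eq]
    exact hC0 u u' w v h1 h2
  obtain ⟨K, hK⟩ := hψ
  constructor
  · refine ⟨3 * (1 * C) + 3 * K, ?_⟩
    intro a b
    have hD := D_bound R hodd C hC (fun _ => 1) 1 (by simp) 1 a (a * b)
    unfold D at hD
    rw [P_one, P_one, P_one] at hD
    have e1 : a⁻¹ * (a * b) = b := by group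
    have e2 : (1 : FreeGroup α)⁻¹ * (a * b) = a * b := by group
    have e3 : (1 : FreeGroup α)⁻¹ * a = a := by group
    rw [e1, e2, e3] at hD
    have k1 := hK a
    have k2 := hK b
    have k3 := hK (a * b)
    rw [abs_le] at hD k1 k2 k3 ⊢
    constructor <;> linarith [hD.1, hD.2, k1.1, k1.2, k2.1, k2.2, k3.1, k3.2]
  · rintro g ⟨G, hG⟩ hg
    have hG0 : 0 ≤ G := (abs_nonneg _).trans (hG 1 1)
    refine ⟨fun a b c => H R g 1 a (a * b) (a * b * c)
      + (ψ a - potentialSum R a) * g b c, ⟨3 * (G * C) + K * G, ?_⟩, ?_⟩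
    · intro a b c
      refine (abs_add_le _ _).trans (add_le_add ?_ ?_)
      · exact D_bound R hodd C hC _ G (fun y => hG _ _) _ _ _
      · rw [abs_mul]
        exact mul_le_mul (hK a) (hG b c) (abs_nonneg _) ((abs_nonneg _).trans (hK a))
    · intro a b c d
      have h0 := H_coboundary R g hg 1 a (a * b) (a * b * c) (a * b * c * d)
      have t1 := H_translate R g a 1 b (b * c) (b * c * d)
      have e1 : a * (b * c) = a * b * c := by group
      have e2 : a * (b * c * d) = a * b * c * d := by group
      rw [mul_one, e1, e2] at t1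
      have e3 : a⁻¹ * (a * b) = b := by group
      have e4 : (1 : FreeGroup α)⁻¹ * (a * b) = a * b := by group
      have e5 : (1 : FreeGroup α)⁻¹ * a = a := by group
      have e6 : (a * b)⁻¹ * (a * b * c) = c := by group
      have e7 : (a * b * c)⁻¹ * (a * b * c * d) = d := by group
      rw [e3, e4, e5, e6, e7] at h0
      have e8 : a * b * (c * d) = a * b * c * d := by group
      have hgg := hg b c d
      simp only
      rw [e1, e8, ← t1]
      have key : (ψ b - potentialSum R b) * g c d - (ψ (a * b) - potentialSum R (a * b)) * g c d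
          + (ψ a - potentialSum R a) * (g (b * c) d - g b (c * d) + g b c)
          = ((ψ b - potentialSum R b) - (ψ (a * b) - potentialSum R (a * b))
            + (ψ a - potentialSum R a)) * g c d := by
        have : g (b * c) d - g b (c * d) + g b c = g c d := by linarith
        rw [this]; ring
      linarith [key, h0]

end Pool.Agent.Results.MP_cea6b9_al.SummablePotential
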